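import Pool.Agent.Y602.PC.Sharp

/-!
# A parameterized PCTL formula with models exactly for sparse parameters

The definitions (Markov chains, the measure on runs, PCTL formulas and their semantics,
parameterized formulas) are in `Pool/Agent/H690R2/PC/Defs.lean`. The formula is that of
`MP_f57a76_lc.LargeModels`. Every model contains a chain of states of classes `0, 1, 0, 1, …`
along which a number `x` doubles, starting with `2 κ`; since `x ≤ 1` the chain ends if `κ > 0`,
and it ends at a state of class `2`, which can only follow a state of class `1`, and where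
`x = 1 / 4`. So `κ = 4 ^ (-k) / 8` for some `k ≥ 1`.
-/

set_option autoImplicit false

namespace Pool.Agent.Results.MP_f57a76_lc.SatisfiableParameters

open Pool.Agent.H690R2.PC

/-- There is a parameterized PCTL formula `φ` such that for `0 < κ ≤ 1` the formula `φ(κ)` has a
model, finite or infinite, if and only if `κ = 4 ^ (-k) / 8` for some `k ≥ 1`; and for
`κ = 4 ^ (-k) / 8` with `k ≥ 1` it has a model with `2 k + 9` states, while all its models have at
least `2 k + 1` states. -/
theorem result : ∃ φ : PPCTL,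
    (∀ κ : Set.Icc (0 : ℝ) 1, 0 < (κ : ℝ) →
      ((∃ M : MC, M.Models (φ.inst κ)) ↔ ∃ k : ℕ, 1 ≤ k ∧ (κ : ℝ) = (1 / 4) ^ k / 8)) ∧
    ∀ k : ℕ, 1 ≤ k → ∀ κ : Set.Icc (0 : ℝ) 1, (κ : ℝ) = (1 / 4) ^ k / 8 →
      (∃ M : MC, Nat.card M.S = 2 * k + 9 ∧ M.Models (φ.inst κ)) ∧
      ∀ M : MC, M.Models (φ.inst κ) → ((2 * k + 1 : ℕ) : Cardinal) ≤ Cardinal.mk M.S := by
  refine ⟨thePhi, fun κ hκ => ⟨?_, ?_⟩, fun k hk κ hκ =>
    ⟨Sharp.model k hk κ hκ, fun M hM => Sharp.lower k κ hκ M hM⟩⟩
  · rintro ⟨M, hM⟩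
    obtain ⟨r, hI, h1⟩ := Sharp.of_models hM
    exact Sharp.param hI h1 hκ
  · rintro ⟨k, hk, e⟩
    obtain ⟨M, -, hM⟩ := Sharp.model k hk κ e
    exact ⟨M, hM⟩

end Pool.Agent.Results.MP_f57a76_lc.SatisfiableParameters
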